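import Pool.Agent.helper92.ISA.Spec

/-!
# Row `isa:LEX` of project ISO, general target sets (`MP_069684_lc`)
-/

set_option autoImplicit false

open Filter Topology

namespace Pool.Agent.ISA

open Pool.Agent.PB Pool.Agent.ISO

open Classical in
theorem LEX_proof (hLEX : Pool.Agent.ISO.LEX_stmt) : LEX_stmt := by
  intro hPNP m A p hA hp w V c hV
  obtain ⟨c', hc'⟩ := hLEX hPNP m (fun _ => 1) p (fun _ => le_rfl) hp w V c hV
  refine ⟨c', fun n => ?_⟩
  obtain ⟨k, W, h1, h2, h3, h4, h5⟩ := hc' n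
  refine ⟨k, W, h1, h2, h3, h4, fun x hx hx' => (h5 x hx hx').trans ?_⟩
  refine Nat.cast_le.2 (Finset.card_le_card fun i hi => ?_)
  have h6 := (Finset.mem_filter.1 hi).2
  have h7 : wit (W i) x = 1 := le_antisymm h6.2 h6.1
  refine Finset.mem_filter.2 ⟨Finset.mem_univ _, ?_⟩
  rw [h7]
  exact hA n

end Pool.Agent.ISA
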